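import Pool.Agent.R90.LT.Core
import Pool.Agent.R90.LT.Geo
import Pool.Agent.R90.LT.TC
import Pool.Agent.R90.LT.SA
import Pool.Agent.R90.LT.DIS
import Pool.Agent.R90.LT.HIT

/-!
# Line transversals in 3-space: disjoint families with cubically many components (MP_ce02af_co)

For every `n ≥ 18` there are `n` pairwise disjoint compact convex semi-algebraic sets in `ℝ³` of
description complexity at most `(32, 2)` whose space of line transversals has at least `n ^ 3 / 64`
connected components.  (The cubic lower bound without disjointness is in the starting file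
`MP_ce02af_co.CubicComponents`.)
-/

open Set Topology

namespace Pool.Agent.Results.MP_ce02af_co.DisjointFamilies

/-- `ℝ³` -/
abbrev R3 : Type := EuclideanSpace ℝ (Fin 3)

/-- Pairs consisting of a point and a nonzero direction in `ℝ³`, with the subspace topology. -/
abbrev PointDir : Type := {p : R3 × R3 // p.2 ≠ 0}

/-- Two pairs (point, direction) are equivalent if they give the same line. -/
def lineSetoid : Setoid PointDir where
  r p q := ∃ a t : ℝ, t ≠ 0 ∧ q.1.1 = p.1.1 + a • p.1.2 ∧ q.1.2 = t • p.1.2
  iseqv := Pool.Agent.R90.LT.lineSetoid.iseqv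

/-- The space of all lines in `ℝ³`, with the quotient topology. -/
def Line : Type := Quotient lineSetoid

instance : TopologicalSpace Line := inferInstanceAs (TopologicalSpace (Quotient lineSetoid))

/-- The line through the point `p.1.1` in direction `p.1.2`. -/
def mkLine (p : PointDir) : Line := Quotient.mk lineSetoid p

/-- The line `l` meets the set `X`. -/
def meets (l : Line) (X : Set R3) : Prop :=
  ∃ p : PointDir, mkLine p = l ∧ ∃ a : ℝ, p.1.1 + a • p.1.2 ∈ X

/-- The transversal space `T³(F)`: all lines meeting every member of `F`. -/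
def T {ι : Type} (F : ι → Set R3) : Set Line := {l | ∀ i, meets l (F i)}

/-- The number of connected components of the transversal space (with the subspace topology). -/
noncomputable def numComp {ι : Type} (F : ι → Set R3) : ℕ∞ :=
  ENat.card (ConnectedComponents (T F))

/-- Description complexity at most `(s, D)`: `X` is a Boolean combination `Φ` of `s` sets, the
`k`-th of the form `{P k = 0}` (if `z k`) or `{P k > 0}` (if not), with `P k` a real polynomial
of degree at most `D`. -/
def SA (s D : ℕ) (X : Set R3) : Prop :=
  ∃ (P : Fin s → MvPolynomial (Fin 3) ℝ) (z : Fin s → Prop) (Φ : (Fin s → Prop) → Prop),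
    (∀ k, (P k).totalDegree ≤ D) ∧
    X = {x : R3 | Φ fun k => (z k ∧ MvPolynomial.eval (fun i => x i) (P k) = 0) ∨
      (¬ z k ∧ 0 < MvPolynomial.eval (fun i => x i) (P k))}

/-- For every `n ≥ 18` there are `n` pairwise disjoint compact convex semi-algebraic sets in `ℝ³`
of description complexity at most `(32, 2)` whose space of line transversals has at least
`n ^ 3 / 64` connected components. -/
theorem result (n : ℕ) (hn : 18 ≤ n) :
    ∃ F : Fin n → Set R3,
      (∀ i, IsCompact (F i) ∧ Convex ℝ (F i) ∧ SA 32 2 (F i)) ∧
      (∀ i j, i ≠ j → Disjoint (F i) (F j)) ∧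
      (n : ℕ∞) ^ 3 ≤ 64 * numComp F :=
  Pool.Agent.R90.LT.core Pool.Agent.R90.LT.tc Pool.Agent.R90.LT.sa
    (Pool.Agent.R90.LT.geo Pool.Agent.R90.LT.dis Pool.Agent.R90.LT.hit) n hn

end Pool.Agent.Results.MP_ce02af_co.DisjointFamilies
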